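import Pool.Agent.Lib.MP_be29a0_al.Defs

set_option autoImplicit false

namespace Pool.Agent.Lib.MPbe29a0

variable {k : Type} {g : ℕ} [CommRing k]

theorem RatExpr.map {R S : Type} [Ring R] [Algebra k R] [Ring S] [Algebra k S] (f : R →ₐ[k] S)
    (Ξ : Fin g → R) (r : RatExpr k g) (h : r.DefinedAt Ξ) :
    r.DefinedAt (fun i => f (Ξ i)) ∧ r.eval (fun i => f (Ξ i)) = f (r.eval Ξ) := by
  induction r with
  | scalar c => exact ⟨trivial, (f.commutes c).symm⟩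
  | var i => exact ⟨trivial, rfl⟩
  | add r s hr hs =>
    obtain ⟨h1, h2⟩ := h
    obtain ⟨h3, h4⟩ := hr h1
    obtain ⟨h5, h6⟩ := hs h2
    refine ⟨⟨h3, h5⟩, ?_⟩
    simp only [RatExpr.eval]
    rw [h4, h6, map_add]
  | mul r s hr hs =>
    obtain ⟨h1, h2⟩ := h
    obtain ⟨h3, h4⟩ := hr h1
    obtain ⟨h5, h6⟩ := hs h2
    refine ⟨⟨h3, h5⟩, ?_⟩
    simp only [RatExpr.eval]
    rw [h4, h6, map_mul]
  | inv r hr =>
    obtain ⟨h1, h2⟩ := h
    obtain ⟨h3, h4⟩ := hr h1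
    have h5 : IsUnit (r.eval (fun i => f (Ξ i))) := by
      rw [h4]
      exact h2.map f
    refine ⟨⟨h3, h5⟩, ?_⟩
    simp only [RatExpr.eval]
    obtain ⟨u, hu⟩ := h2
    rw [h4, ← hu, Ring.inverse_unit]
    have h6 : f (u : R) = ((Units.map (f : R →* S) u : Sˣ) : S) := rfl
    rw [h6, Ring.inverse_unit]
    rfl

theorem RatExpr.prod {R S : Type} [Ring R] [Algebra k R] [Ring S] [Algebra k S]
    (Ξ : Fin g → R) (Υ : Fin g → S) (r : RatExpr k g) (h : r.DefinedAt Ξ) (h' : r.DefinedAt Υ) :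
    r.DefinedAt (fun i => (Ξ i, Υ i)) ∧
      r.eval (fun i => (Ξ i, Υ i)) = (r.eval Ξ, r.eval Υ) := by
  induction r with
  | scalar c => exact ⟨trivial, rfl⟩
  | var i => exact ⟨trivial, rfl⟩
  | add r s hr hs =>
    obtain ⟨h3, h4⟩ := hr h.1 h'.1
    obtain ⟨h5, h6⟩ := hs h.2 h'.2
    refine ⟨⟨h3, h5⟩, ?_⟩
    simp only [RatExpr.eval]
    rw [h4, h6]
    rfl
  | mul r s hr hs =>
    obtain ⟨h3, h4⟩ := hr h.1 h'.1
    obtain ⟨h5, h6⟩ := hs h.2 h'.2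
    refine ⟨⟨h3, h5⟩, ?_⟩
    simp only [RatExpr.eval]
    rw [h4, h6]
    rfl
  | inv r hr =>
    obtain ⟨h3, h4⟩ := hr h.1 h'.1
    obtain ⟨u, hu⟩ := h.2
    obtain ⟨v, hv⟩ := h'.2
    have h5 : r.eval (fun i => (Ξ i, Υ i)) = ((MulEquiv.prodUnits.symm (u, v) : (R × S)ˣ) : R × S) := by
      rw [h4, ← hu, ← hv]
      rfl
    refine ⟨⟨h3, ?_⟩, ?_⟩
    · rw [h5]
      exact Units.isUnit _
    · simp only [RatExpr.eval]
      rw [h5, Ring.inverse_unit, ← hu, ← hv, Ring.inverse_unit, Ring.inverse_unit]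
      rfl

/-- Block diagonal matrices as an algebra homomorphism. -/
def blockHom (m n : ℕ) (K : Type) [CommRing K] [Algebra k K] :
    (Matrix (Fin m) (Fin m) K × Matrix (Fin n) (Fin n) K) →ₐ[k]
      Matrix (Fin m ⊕ Fin n) (Fin m ⊕ Fin n) K where
  toFun p := Matrix.fromBlocks p.1 0 0 p.2
  map_one' := Matrix.fromBlocks_one
  map_mul' p q := by
    rw [Matrix.fromBlocks_multiply]
    simp
  map_zero' := Matrix.fromBlocks_zero
  map_add' p q := by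
    rw [Matrix.fromBlocks_add]
    simp
  commutes' c := by
    rw [Algebra.algebraMap_eq_smul_one, Algebra.algebraMap_eq_smul_one, Prod.smul_fst,
      Prod.smul_snd, Prod.fst_one, Prod.snd_one, ← Matrix.fromBlocks_one, Matrix.fromBlocks_smul]
    simp

/-- Direct sums of points. -/
theorem RatExpr.sum {m n : ℕ} {K : Type} [CommRing K] [Algebra k K]
    (Ξ : Fin g → Matrix (Fin m) (Fin m) K) (Υ : Fin g → Matrix (Fin n) (Fin n) K)
    (r : RatExpr k g) (h : r.DefinedAt Ξ) (h' : r.DefinedAt Υ) :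
    r.DefinedAt (fun i => Matrix.reindexAlgEquiv k K finSumFinEquiv
      (Matrix.fromBlocks (Ξ i) 0 0 (Υ i))) ∧
      r.eval (fun i => Matrix.reindexAlgEquiv k K finSumFinEquiv
        (Matrix.fromBlocks (Ξ i) 0 0 (Υ i))) =
        Matrix.reindexAlgEquiv k K finSumFinEquiv
          (Matrix.fromBlocks (r.eval Ξ) 0 0 (r.eval Υ)) := by
  obtain ⟨h1, h2⟩ := RatExpr.prod Ξ Υ r h h'
  obtain ⟨h3, h4⟩ := RatExpr.map (blockHom m n K) _ r h1
  obtain ⟨h5, h6⟩ := RatExpr.map (Matrix.reindexAlgEquiv k K finSumFinEquiv).toAlgHom _ r h3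
  refine ⟨h5, ?_⟩
  rw [h4, h2] at h6
  exact h6

end Pool.Agent.Lib.MPbe29a0
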