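import Mathlib

set_option autoImplicit false

namespace Pool.Agent.Lib.MPbe29a0

open Polynomial

theorem no_quartic_rat (u v : ℚ) (hu : u ≠ 0) : v ^ 2 ≠ u ^ 4 + 1 := by
  intro h
  have hbz : (u.den : ℤ) ≠ 0 := by exact_mod_cast u.den_nz
  have hdz : (v.den : ℤ) ≠ 0 := by exact_mod_cast v.den_nz
  have haz : u.num ≠ 0 := Rat.num_ne_zero.2 hu
  have hA : u.num * v.den ≠ 0 := mul_ne_zero haz hdz
  have hB : (u.den : ℤ) * v.den ≠ 0 := mul_ne_zero hbz hdz
  apply not_fermat_42 hA hB (c := v.den * v.num * u.den ^ 2)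
  have hbq : (u.den : ℚ) ≠ 0 := by exact_mod_cast u.den_nz
  have hdq : (v.den : ℚ) ≠ 0 := by exact_mod_cast v.den_nz
  have hu' : u * u.den = u.num := Rat.mul_den_eq_num u
  have hv' : v * v.den = v.num := Rat.mul_den_eq_num v
  have key : ((u.num : ℚ) * v.den) ^ 4 + ((u.den : ℚ) * v.den) ^ 4 =
      ((v.den : ℚ) * v.num * u.den ^ 2) ^ 2 := by
    rw [← hu', ← hv']
    linear_combination (-(u.den : ℚ) ^ 4 * (v.den : ℚ) ^ 4) * h
  exact_mod_cast key

theorem no_quartic (u v : RatFunc ℚ) (hu : u ≠ 0) : v ^ 2 ≠ u ^ 4 + 1 := by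
  intro h
  set a := u.num with ha
  set b := u.denom with hb
  have hb0 : b ≠ 0 := u.denom_ne_zero
  have ha0 : a ≠ 0 := by
    intro h0
    apply hu
    rwa [← RatFunc.num_eq_zero_iff]
  have hbK : algebraMap ℚ[X] (RatFunc ℚ) b ≠ 0 := RatFunc.algebraMap_ne_zero hb0
  have hu' : u * algebraMap ℚ[X] (RatFunc ℚ) b = algebraMap ℚ[X] (RatFunc ℚ) a := by
    have := RatFunc.num_div_denom u
    rw [← ha, ← hb, div_eq_iff hbK] at this
    exact this.symm
  have hc2 : (v * algebraMap ℚ[X] (RatFunc ℚ) b ^ 2) ^ 2 =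
      algebraMap ℚ[X] (RatFunc ℚ) (a ^ 4 + b ^ 4) := by
    rw [map_add, map_pow, map_pow, ← hu']
    linear_combination (algebraMap ℚ[X] (RatFunc ℚ) b ^ 4) * h
  have hint : IsIntegral ℚ[X] ((v * algebraMap ℚ[X] (RatFunc ℚ) b ^ 2) ^ 2) := by
    rw [hc2]
    exact isIntegral_algebraMap
  obtain ⟨c, hc⟩ := IsIntegrallyClosed.exists_algebraMap_eq_of_isIntegral_pow (by norm_num) hint
  have heq : c ^ 2 = a ^ 4 + b ^ 4 := by
    apply RatFunc.algebraMap_injective ℚ
    rw [map_pow, hc, hc2]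
  have hcop : IsCoprime a b := RatFunc.isCoprime_num_denom u
  have hc0 : c ≠ 0 := by
    intro h0
    rw [h0] at heq
    have h1 : a ^ 4 = - b ^ 4 := by
      linear_combination - heq
    -- leading coefficients
    have h2 := congrArg leadingCoeff h1
    rw [leadingCoeff_neg, leadingCoeff_pow, leadingCoeff_pow] at h2
    have h3 : a.leadingCoeff ≠ 0 := leadingCoeff_ne_zero.2 ha0
    have h4 : 0 < a.leadingCoeff ^ 4 := by positivity
    have h5 : 0 ≤ b.leadingCoeff ^ 4 := by positivity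
    linarith
  have h6 := Polynomial.flt_catalan (p := 4) (q := 4) (r := 2) (by norm_num) (by norm_num)
    (by norm_num) (by norm_num) (by norm_num) (by norm_num) (by norm_num) ha0 hb0 hc0 hcop
    (u := (1:ℚ)) (v := (1:ℚ)) (w := (-1:ℚ)) (by norm_num) (by norm_num) (by norm_num) (by
      rw [C_1, C_neg, C_1]
      linear_combination - heq)
  obtain ⟨h7, h8, h9⟩ := h6
  rw [natDegree_eq_zero] at h7 h8 h9
  obtain ⟨a0, ha'⟩ := h7
  obtain ⟨b0, hb'⟩ := h8
  obtain ⟨c0, hc'⟩ := h9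
  have ha0' : a0 ≠ 0 := by
    intro h0
    apply ha0
    rw [← ha', h0, C_0]
  have hb0' : b0 ≠ 0 := by
    intro h0
    apply hb0
    rw [← hb', h0, C_0]
  have heq' : c0 ^ 2 = a0 ^ 4 + b0 ^ 4 := by
    apply C_injective
    rw [C_add, C_pow, C_pow, C_pow, ha', hb', hc', heq]
  apply no_quartic_rat (a0 / b0) (c0 / b0 ^ 2) (div_ne_zero ha0' hb0')
  field_simp
  linear_combination heq'

/-- The elliptic curve `y² = x³ - 4 x` has no points over `ℚ(t)` with `y ≠ 0`. -/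
theorem no_point (x y : RatFunc ℚ) (hy : y ≠ 0) : y * y ≠ x * x * x - 4 * x := by
  intro h
  have hx : x ≠ 0 := by
    intro h0
    rw [h0] at h
    simp at h
    exact hy h
  have h2 : (2 : RatFunc ℚ) ≠ 0 := by norm_num
  apply no_quartic (y / (2 * x)) (x / 2 - (y / (2 * x)) ^ 2)
    (div_ne_zero hy (mul_ne_zero h2 hx))
  field_simp
  linear_combination (-4 * x ^ 3) * h

end Pool.Agent.Lib.MPbe29a0
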