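import Pool.Agent.Lib.MP_be29a0_al.Elliptic

set_option autoImplicit false

namespace Pool.Agent.Lib.MPbe29a0

open MvPolynomial

/-- Two equivalent expressions over an infinite field have proportional polynomial data. -/
theorem equiv_den {k : Type} [Field k] [Infinite k] {g n : ℕ} {r s : RatExpr k g}
    (h : r.Equivalent s) {δ ε : Gen k g n} {N M : Matrix (Fin n) (Fin n) (Gen k g n)}
    (hr : ∀ (S : Type) [CommRing S] [Algebra k S] (Ξ : Fin g → Matrix (Fin n) (Fin n) S),
        (r.DefinedAt Ξ ↔ IsUnit (ent Ξ δ)) ∧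
        (r.DefinedAt Ξ → ent Ξ δ • r.eval Ξ = N.map (ent Ξ)))
    (hs : ∀ (S : Type) [CommRing S] [Algebra k S] (Ξ : Fin g → Matrix (Fin n) (Fin n) S),
        (s.DefinedAt Ξ ↔ IsUnit (ent Ξ ε)) ∧
        (s.DefinedAt Ξ → ent Ξ ε • s.eval Ξ = M.map (ent Ξ)))
    (hδ : δ ≠ 0) (hε : ε ≠ 0) : ε • N = δ • M := by
  refine Matrix.ext (fun i j => ?_)
  rw [Matrix.smul_apply, Matrix.smul_apply, smul_eq_mul, smul_eq_mul]
  have h1 : δ * ε * (ε * N i j - δ * M i j) = 0 := by
    apply MvPolynomial.funext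
    intro x
    rw [map_zero]
    let Ξ : Fin g → Matrix (Fin n) (Fin n) k := fun l a b => x (l, a, b)
    have hx : ∀ f : Gen k g n, eval x f = ent Ξ f := by
      intro f
      rfl
    rw [hx]
    simp only [map_mul, map_sub]
    by_cases h2 : ent Ξ δ = 0
    · rw [h2]; ring
    by_cases h3 : ent Ξ ε = 0
    · rw [h3]; ring
    have h4 := (hr k Ξ).1.2 (IsUnit.mk0 _ h2)
    have h5 := (hs k Ξ).1.2 (IsUnit.mk0 _ h3)
    have h6 := (hr k Ξ).2 h4
    have h7 := (hs k Ξ).2 h5
    rw [h n Ξ h4 h5] at h6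
    have h8 := congrFun (congrFun h6 i) j
    have h9 := congrFun (congrFun h7 i) j
    rw [Matrix.smul_apply, smul_eq_mul, Matrix.map_apply] at h8 h9
    rw [← h8, ← h9]
    ring
  have h2 : δ * ε ≠ 0 := mul_ne_zero hδ hε
  exact sub_eq_zero.1 ((mul_eq_zero.1 h1).resolve_left h2)

/-- An operator commuting with a matrix acts by a scalar on the eigenspace of a simple
eigenvalue. -/
theorem scalar_on_eigenvector {F : Type} [Field F] {n : ℕ} (A B : Matrix (Fin n) (Fin n) F)
    (hAB : A * B = B * A) (μ : F) (hμ : A.charpoly.rootMultiplicity μ = 1) (v : Fin n → F)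
    (hv : v ≠ 0) (hAv : A.mulVec v = μ • v) : ∃ ν : F, B.mulVec v = ν • v := by
  classical
  let φ := Matrix.toLin' A
  have h1 : Module.finrank F (Module.End.eigenspace φ μ) ≤ 1 := by
    have := LinearMap.finrank_eigenspace_le φ μ
    rw [Matrix.charpoly_toLin', hμ] at this
    exact this
  have h2 : v ∈ Module.End.eigenspace φ μ := by
    rw [Module.End.mem_eigenspace_iff]
    exact hAv
  have h3 : B.mulVec v ∈ Module.End.eigenspace φ μ := by
    rw [Module.End.mem_eigenspace_iff]
    show A.mulVec (B.mulVec v) = μ • B.mulVec v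
    rw [Matrix.mulVec_mulVec, hAB, ← Matrix.mulVec_mulVec, hAv, Matrix.mulVec_smul]
  rw [finrank_le_one_iff] at h1
  obtain ⟨w, hw⟩ := h1
  obtain ⟨a, ha⟩ := hw ⟨v, h2⟩
  obtain ⟨b, hb⟩ := hw ⟨B.mulVec v, h3⟩
  have ha' : a • (w : Fin n → F) = v := congrArg Subtype.val ha
  have hb' : b • (w : Fin n → F) = B.mulVec v := congrArg Subtype.val hb
  have ha0 : a ≠ 0 := by
    intro h
    rw [h, zero_smul] at ha'
    exact hv ha'.symm
  refine ⟨b / a, ?_⟩
  rw [← hb', ← ha', smul_smul, div_mul_cancel₀ _ ha0]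

/-- Hensel lifting of a simple root of the characteristic polynomial from `K` to `K⟦t⟧`. -/
theorem hensel {K : Type} [Field K] {n : ℕ} (A : Matrix (Fin n) (Fin n) (PowerSeries K))
    (μ : K) (hμ : (A.map (PowerSeries.constantCoeff (R := K))).charpoly.rootMultiplicity μ = 1) :
    ∃ ν : PowerSeries K, A.charpoly.IsRoot ν ∧ IsUnit (A.charpoly.derivative.eval ν) ∧
      PowerSeries.constantCoeff ν = μ := by
  classical
  set f := A.charpoly with hf
  have hmon : f.Monic := A.charpoly_monic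
  set φ := PowerSeries.constantCoeff (R := K) with hφ
  have hmap : f.map φ = (A.map φ).charpoly := by
    rw [hf, ← Matrix.charpoly_map]
  have hne : (A.map φ).charpoly ≠ 0 := (Matrix.charpoly_monic _).ne_zero
  have hroot : (A.map φ).charpoly.IsRoot μ := by
    rw [← Polynomial.rootMultiplicity_pos hne, hμ]
    exact one_pos
  have hder : ¬ (A.map φ).charpoly.derivative.IsRoot μ := by
    intro h
    have h1 := (Polynomial.one_lt_rootMultiplicity_iff_isRoot hne).2 ⟨hroot, h⟩
    omega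
  have hφC : ∀ a : K, φ (PowerSeries.C a) = a := fun a => PowerSeries.constantCoeff_C a
  have h1 : f.eval (PowerSeries.C μ) ∈ Ideal.span {(PowerSeries.X : PowerSeries K)} := by
    rw [Ideal.mem_span_singleton, PowerSeries.X_dvd_iff]
    show φ (f.eval (PowerSeries.C μ)) = 0
    rw [← Polynomial.eval₂_at_apply, hφC, ← Polynomial.eval_map, hmap]
    exact hroot
  have h2 : IsUnit (f.derivative.eval (PowerSeries.C μ)) := by
    rw [PowerSeries.isUnit_iff_constantCoeff]
    show IsUnit (φ (f.derivative.eval (PowerSeries.C μ)))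
    rw [← Polynomial.eval₂_at_apply, hφC, ← Polynomial.eval_map, ← Polynomial.derivative_map, hmap]
    exact IsUnit.mk0 _ hder
  obtain ⟨ν, h3, h4⟩ := HenselianRing.is_henselian
    (I := Ideal.span {(PowerSeries.X : PowerSeries K)}) f hmon (PowerSeries.C μ) h1 (h2.map _)
  have h5 : φ ν = μ := by
    rw [Ideal.mem_span_singleton, PowerSeries.X_dvd_iff] at h4
    have h6 : φ (ν - PowerSeries.C μ) = 0 := h4
    rw [map_sub, hφC, sub_eq_zero] at h6
    exact h6
  refine ⟨ν, h3, ?_, h5⟩
  rw [PowerSeries.isUnit_iff_constantCoeff]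
  show IsUnit (φ (f.derivative.eval ν))
  rw [← Polynomial.eval₂_at_apply, h5, ← Polynomial.eval_map, ← Polynomial.derivative_map, hmap]
  exact IsUnit.mk0 _ hder

end Pool.Agent.Lib.MPbe29a0
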