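import Mathlib

set_option autoImplicit false

namespace Pool.Agent.Lib.MPbe29a0

/-- Noncommutative rational expressions over `k` in `g` noncommuting variables: they are built from
scalars and variables by addition, multiplication and inversion. -/
inductive RatExpr (k : Type) (g : ℕ) : Type
  | scalar (c : k) : RatExpr k g
  | var (i : Fin g) : RatExpr k g
  | add (r s : RatExpr k g) : RatExpr k g
  | mul (r s : RatExpr k g) : RatExpr k g
  | inv (r : RatExpr k g) : RatExpr k g

variable {k : Type} {g : ℕ} [CommRing k]

/-- The value of an expression at a tuple `Ξ` of elements of a `k`-algebra `R`. It is meaningful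
when the expression is defined at `Ξ`; `Ring.inverse a` is the inverse of `a` when `a` is
invertible. -/
noncomputable def RatExpr.eval {R : Type} [Ring R] [Algebra k R] (Ξ : Fin g → R) :
    RatExpr k g → R
  | .scalar c => algebraMap k R c
  | .var i => Ξ i
  | .add r s => r.eval Ξ + s.eval Ξ
  | .mul r s => r.eval Ξ * s.eval Ξ
  | .inv r => Ring.inverse (r.eval Ξ)

/-- An expression is defined at a tuple `Ξ` of elements of a `k`-algebra `R` when every element
that has to be inverted along the way is invertible. -/
def RatExpr.DefinedAt {R : Type} [Ring R] [Algebra k R] (Ξ : Fin g → R) :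
    RatExpr k g → Prop
  | .scalar _ => True
  | .var _ => True
  | .add r s => r.DefinedAt Ξ ∧ s.DefinedAt Ξ
  | .mul r s => r.DefinedAt Ξ ∧ s.DefinedAt Ξ
  | .inv r => r.DefinedAt Ξ ∧ IsUnit (r.eval Ξ)

/-- An expression is nondegenerate when it is defined at some tuple of square matrices over `k`. -/
def RatExpr.Nondegenerate (r : RatExpr k g) : Prop :=
  ∃ n : ℕ, 1 ≤ n ∧ ∃ Ξ : Fin g → Matrix (Fin n) (Fin n) k, r.DefinedAt Ξ

/-- Two expressions are equivalent when they take the same value at every tuple of square matrices
over `k`, of any size, at which both are defined. For an infinite field `k` the equivalence classes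
of nondegenerate expressions are the noncommutative rational functions, that is, the elements of
the free skew field. -/
def RatExpr.Equivalent (r s : RatExpr k g) : Prop :=
  ∀ (n : ℕ) (Ξ : Fin g → Matrix (Fin n) (Fin n) k), r.DefinedAt Ξ → s.DefinedAt Ξ →
    r.eval Ξ = s.eval Ξ

end Pool.Agent.Lib.MPbe29a0
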