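import Pool.Agent.Lib.MP_be29a0_al.Basic

set_option autoImplicit false

namespace Pool.Agent.Lib.MPbe29a0

open MvPolynomial

variable {k : Type} {g : ℕ} [Field k]

/-- The polynomial ring of the entries of `g` generic matrices of size `n`. -/
abbrev Gen (k : Type) [Field k] (g n : ℕ) := MvPolynomial (Fin g × Fin n × Fin n) k

/-- Evaluation of polynomials in the entries. -/
noncomputable def ent {n : ℕ} {S : Type} [CommRing S] [Algebra k S]
    (Ξ : Fin g → Matrix (Fin n) (Fin n) S) : Gen k g n →ₐ[k] S :=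
  aeval (fun t => Ξ t.1 t.2.1 t.2.2)

theorem det_unit_of_smul {n : ℕ} {S : Type} [CommRing S] (u : S) (hu : IsUnit u)
    (B : Matrix (Fin n) (Fin n) S) : IsUnit (u • B).det ↔ IsUnit B.det := by
  rw [Matrix.det_smul]
  constructor
  · intro h
    exact isUnit_of_mul_isUnit_right h
  · intro h
    exact (hu.pow _).mul h

/-- The domain of an expression on matrices of size `n` is a principal open set, and the value is
given by polynomials over the denominator. -/
theorem RatExpr.exists_den (n : ℕ) (r : RatExpr k g) :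
    ∃ (δ : Gen k g n) (N : Matrix (Fin n) (Fin n) (Gen k g n)),
      ∀ (S : Type) [CommRing S] [Algebra k S] (Ξ : Fin g → Matrix (Fin n) (Fin n) S),
        (r.DefinedAt Ξ ↔ IsUnit (ent Ξ δ)) ∧
        (r.DefinedAt Ξ → ent Ξ δ • r.eval Ξ = N.map (ent Ξ)) := by
  induction r with
  | scalar c =>
    refine ⟨1, algebraMap k _ c, ?_⟩
    intro S _ _ Ξ
    refine ⟨?_, ?_⟩
    · simp [RatExpr.DefinedAt]
    · intro _
      simp only [RatExpr.eval]
      rw [map_one, one_smul]
      ext i j
      simp [Matrix.algebraMap_matrix_apply]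
      split_ifs <;> simp [ent]
  | var i =>
    refine ⟨1, fun a b => X (i, a, b), ?_⟩
    intro S _ _ Ξ
    refine ⟨?_, ?_⟩
    · simp [RatExpr.DefinedAt]
    · intro _
      simp only [RatExpr.eval]
      rw [map_one, one_smul]
      ext a b
      simp [ent]
  | add r s hr hs =>
    obtain ⟨δ, N, h1⟩ := hr
    obtain ⟨ε, M, h2⟩ := hs
    refine ⟨δ * ε, ε • N + δ • M, ?_⟩
    intro S _ _ Ξ
    obtain ⟨h3, h4⟩ := h1 S Ξ
    obtain ⟨h5, h6⟩ := h2 S Ξ
    refine ⟨?_, ?_⟩
    · simp only [RatExpr.DefinedAt]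
      rw [h3, h5, map_mul, IsUnit.mul_iff]
    · intro h
      simp only [RatExpr.eval]
      have e1 := h4 h.1
      have e2 := h6 h.2
      have e3 : (ε • N + δ • M).map (ent Ξ) = ent Ξ ε • N.map (ent Ξ) + ent Ξ δ • M.map (ent Ξ) := by
        ext i j
        simp
      rw [e3, ← e1, ← e2, map_mul, smul_add, smul_smul, smul_smul, mul_comm (ent Ξ ε)]
  | mul r s hr hs =>
    obtain ⟨δ, N, h1⟩ := hr
    obtain ⟨ε, M, h2⟩ := hs
    refine ⟨δ * ε, N * M, ?_⟩
    intro S _ _ Ξ
    obtain ⟨h3, h4⟩ := h1 S Ξ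
    obtain ⟨h5, h6⟩ := h2 S Ξ
    refine ⟨?_, ?_⟩
    · simp only [RatExpr.DefinedAt]
      rw [h3, h5, map_mul, IsUnit.mul_iff]
    · intro h
      simp only [RatExpr.eval]
      have e1 := h4 h.1
      have e2 := h6 h.2
      have e3 : (N * M).map (ent Ξ) = N.map (ent Ξ) * M.map (ent Ξ) := Matrix.map_mul
      rw [e3, ← e1, ← e2, map_mul, Matrix.smul_mul, Matrix.mul_smul, smul_smul]
  | inv r hr =>
    obtain ⟨δ, N, h1⟩ := hr
    refine ⟨δ * N.det, (δ * δ) • N.adjugate, ?_⟩
    intro S _ _ Ξ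
    obtain ⟨h3, h4⟩ := h1 S Ξ
    have hdet : ent Ξ N.det = (N.map (ent Ξ)).det := by
      rw [AlgHom.map_det]
      rfl
    refine ⟨?_, ?_⟩
    · simp only [RatExpr.DefinedAt]
      rw [map_mul, IsUnit.mul_iff, ← h3]
      constructor
      · rintro ⟨h5, h6⟩
        refine ⟨h5, ?_⟩
        rw [hdet, ← h4 h5, det_unit_of_smul _ (h3.1 h5)]
        exact (Matrix.isUnit_iff_isUnit_det _).1 h6
      · rintro ⟨h5, h6⟩
        refine ⟨h5, ?_⟩
        rw [hdet, ← h4 h5, det_unit_of_smul _ (h3.1 h5)] at h6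
        exact (Matrix.isUnit_iff_isUnit_det _).2 h6
    · rintro ⟨h5, h6⟩
      simp only [RatExpr.eval]
      have e1 := h4 h5
      have e3 : ((δ * δ) • N.adjugate).map (ent Ξ) =
          (ent Ξ δ * ent Ξ δ) • (N.map (ent Ξ)).adjugate := by
        ext i j
        rw [Matrix.map_apply, Matrix.smul_apply, smul_eq_mul, map_mul, map_mul, Matrix.smul_apply,
          smul_eq_mul]
        congr 1
        have := AlgHom.map_adjugate (ent (k := k) Ξ) N
        have h7 := congrFun (congrFun this i) j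
        exact h7
      rw [e3, map_mul, hdet]
      -- multiply by the value on the right
      have e4 : (N.map (ent Ξ)).det • (1 : Matrix (Fin n) (Fin n) S) =
          (N.map (ent Ξ)).adjugate * N.map (ent Ξ) := (Matrix.adjugate_mul _).symm
      have e5 : r.eval Ξ * Ring.inverse (r.eval Ξ) = 1 := Ring.mul_inverse_cancel _ h6
      have e6 : (N.map (ent Ξ)).det • Ring.inverse (r.eval Ξ) =
          ent Ξ δ • (N.map (ent Ξ)).adjugate := by
        calc (N.map (ent Ξ)).det • Ring.inverse (r.eval Ξ)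
            = ((N.map (ent Ξ)).det • (1 : Matrix (Fin n) (Fin n) S)) * Ring.inverse (r.eval Ξ) := by
              rw [Matrix.smul_mul, one_mul]
          _ = (N.map (ent Ξ)).adjugate * (ent Ξ δ • r.eval Ξ) * Ring.inverse (r.eval Ξ) := by
              rw [e4, e1]
          _ = ent Ξ δ • ((N.map (ent Ξ)).adjugate * (r.eval Ξ * Ring.inverse (r.eval Ξ))) := by
              rw [Matrix.mul_smul, Matrix.smul_mul, Matrix.mul_assoc]
          _ = _ := by rw [e5, mul_one]
      rw [mul_smul, e6, smul_smul]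

end Pool.Agent.Lib.MPbe29a0
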