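import Mathlib

set_option autoImplicit false

namespace Pool.Agent.Lib.MPbe29a0

/-- Commuting elliptic elements in an arbitrary ring. If `κ = p q - q p` is invertible with inverse
`κi`, put `c = κi (p² + q³ - 4 q)`, `X = c² + q + κi q κ` and `Y = p - q c - c X`. Then `X` and `Y`
commute and `Y² = X³ - 4 X`. -/
theorem elliptic {A : Type*} [Ring A] (p q κi : A)
    (hl : κi * (p * q - q * p) = 1) (hr : (p * q - q * p) * κi = 1)
    (c X Y : A)
    (hc : c = κi * (p * p + q * q * q - 4 * q))
    (hX : X = c * c + (q + κi * (q * (p * q - q * p))))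
    (hY : Y = p - q * c - c * X) :
    X * Y = Y * X ∧ Y * Y = X * X * X - 4 * X := by
  obtain ⟨κ, hκ⟩ : ∃ κ, κ = p * q - q * p := ⟨_, rfl⟩
  rw [← hκ] at hl hr hX
  obtain ⟨q', hq'⟩ : ∃ q', q' = κi * (q * κ) := ⟨_, rfl⟩
  rw [← hq'] at hX
  obtain ⟨N, hN⟩ : ∃ N, N = p * p + q * q * q - 4 * q := ⟨_, rfl⟩
  rw [← hN] at hc
  have h1 : κ * c = N := by rw [hc, ← mul_assoc, hr, one_mul]
  have h2 : κ * q' = q * κ := by rw [hq', ← mul_assoc, hr, one_mul]
  have hcancel : ∀ z : A, κ * z = 0 → z = 0 := by
    intro z hz
    have : κi * (κ * z) = 0 := by rw [hz, mul_zero]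
    rwa [← mul_assoc, hl, one_mul] at this
  -- the key identity
  have T : q * q + q' * q + q' * q' + q' * c * c + c * p - c * q * c + p * c - 4 = 0 := by
    apply hcancel
    have e1 : κ * (q * q + q' * q + q' * q' + q' * c * c + c * p - c * q * c + p * c - 4) =
        κ * q * q + (κ * q') * q + (κ * q') * q' + (κ * q') * c * c + (κ * c) * p
          - (κ * c) * q * c + κ * p * c - 4 * κ := by noncomm_ring
    rw [e1, h1, h2]
    have e2 : κ * q * q + q * κ * q + q * κ * q' + q * κ * c * c + N * p - N * q * c + κ * p * c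
        - 4 * κ = κ * q * q + q * κ * q + q * (κ * q') + q * (κ * c) * c + N * p - N * q * c
          + κ * p * c - 4 * κ := by noncomm_ring
    rw [e2, h1, h2]
    -- now `(q N - N q + κ p) c = - p κ c = - p N`
    have e3 : q * N - N * q + κ * p = - (p * κ) := by
      rw [hN, hκ]; noncomm_ring
    have e4 : κ * q * q + q * κ * q + q * (q * κ) + q * N * c + N * p - N * q * c + κ * p * c
        - 4 * κ = κ * q * q + q * κ * q + q * (q * κ) + (q * N - N * q + κ * p) * c + N * p
          - 4 * κ := by noncomm_ring
    rw [e4, e3]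
    have e5 : κ * q * q + q * κ * q + q * (q * κ) + -(p * κ) * c + N * p - 4 * κ =
        κ * q * q + q * κ * q + q * (q * κ) - p * (κ * c) + N * p - 4 * κ := by noncomm_ring
    rw [e5, h1, hN, hκ]
    noncomm_ring
  have G : - κ + q' * p - p * q' + c * q * q' + q' * q' * c - q' * c * q - q' * c * q' = 0 := by
    apply hcancel
    have e1 : κ * (- κ + q' * p - p * q' + c * q * q' + q' * q' * c - q' * c * q - q' * c * q') =
        - κ * κ + (κ * q') * p - κ * p * q' + (κ * c) * q * q' + (κ * q') * q' * c
          - (κ * q') * c * q - (κ * q') * c * q' := by noncomm_ring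
    rw [e1, h1, h2]
    have e2 : - κ * κ + q * κ * p - κ * p * q' + N * q * q' + q * κ * q' * c
          - q * κ * c * q - q * κ * c * q' = - κ * κ + q * κ * p - κ * p * q' + N * q * q'
          + q * (κ * q') * c - q * (κ * c) * q - q * (κ * c) * q' := by noncomm_ring
    rw [e2, h1, h2]
    have e3 : - κ * κ + q * κ * p - κ * p * q' + N * q * q' + q * (q * κ) * c - q * N * q
          - q * N * q' = - κ * κ + q * κ * p + (N * q - q * N - κ * p) * q' + q * q * (κ * c)
          - q * N * q := by noncomm_ring
    have e4 : N * q - q * N - κ * p = p * κ := by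
      rw [hN, hκ]; noncomm_ring
    rw [e3, e4, h1]
    have e5 : - κ * κ + q * κ * p + p * κ * q' + q * q * N - q * N * q =
        - κ * κ + q * κ * p + p * (κ * q') + q * q * N - q * N * q := by noncomm_ring
    rw [e5, h2, hN, hκ]
    noncomm_ring
  -- commutation
  have hcomm : X * (p - q * c) - (p - q * c) * X + (c * X - X * c) * X = 0 := by
    have e1 : X * (p - q * c) - (p - q * c) * X + (c * X - X * c) * X =
        (- κ + q' * p - p * q' + c * q * q' + q' * q' * c - q' * c * q - q' * c * q')
        + c * (q * q + q' * q + q' * q' + q' * c * c + c * p - c * q * c + p * c - 4)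
        - (q * q + q' * q + q' * q' + q' * c * c + c * p - c * q * c + p * c - 4) * c := by
      rw [hX, hκ]
      noncomm_ring
    rw [e1, T, G]
    noncomm_ring
  have hXY : X * Y = Y * X := by
    rw [hY]
    have : X * (p - q * c - c * X) - (p - q * c - c * X) * X =
        X * (p - q * c) - (p - q * c) * X + (c * X - X * c) * X := by noncomm_ring
    rw [← sub_eq_zero, this, hcomm]
  refine ⟨hXY, ?_⟩
  -- the two scalar identities
  have hm : q * q' = (p - q * c) * c + c * (p - q * c) + (q + q') * X - 4 := by
    have : (p - q * c) * c + c * (p - q * c) + (q + q') * X - 4 - q * q' =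
        q * q + q' * q + q' * q' + q' * c * c + c * p - c * q * c + p * c - 4 := by
      rw [hX]; noncomm_ring
    rw [T] at this
    exact (sub_eq_zero.1 this).symm
  have hu : (p - q * c) * (p - q * c) = q * q' * X := by
    have e1 : (p - q * c) * (p - q * c) - q * q' * X =
        p * p - (κ + q * p) * c - q * c * (p - q * c) - q * q' * (c * c + (q + q')) := by
      rw [hX, hκ]; noncomm_ring
    have e2 : p * p - (κ + q * p) * c - q * c * (p - q * c) - q * q' * (c * c + (q + q')) =
        p * p - κ * c - q * p * c - q * c * (p - q * c) - q * q' * (c * c + (q + q')) := by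
      noncomm_ring
    have e3 : p * p - N - q * p * c - q * c * (p - q * c) - q * q' * (c * c + (q + q')) =
        - q * (q * q + q' * q + q' * q' + q' * c * c + c * p - c * q * c + p * c - 4) := by
      rw [hN]; noncomm_ring
    rw [← sub_eq_zero, e1, e2, h1, e3, T, mul_zero]
  have hX2 : X * X = q * q' + 4 - (p - q * c) * c - c * (p - q * c) + c * c * X := by
    have : X * X = (q + q') * X + c * c * X := by
      conv_lhs => rw [hX]
      rw [hX]
      noncomm_ring
    rw [this, hm]
    noncomm_ring
  have hY2 : Y * Y = (p - q * c) * (p - q * c) - (p - q * c) * c * X - c * X * Y := by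
    rw [hY]; noncomm_ring
  rw [hY2, hu]
  have e1 : c * X * Y = c * (X * Y) := by noncomm_ring
  rw [e1, hXY, hY]
  have e2 : X * X * X - 4 * X = q * q' * X - (p - q * c) * c * X - c * (p - q * c) * X
      + c * c * X * X := by
    rw [hX2]; noncomm_ring
  rw [e2]
  noncomm_ring

end Pool.Agent.Lib.MPbe29a0
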