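import Pool.Agent.Lib.MP_be29a0_al.Denominator
import Pool.Agent.Lib.MP_be29a0_al.Identity

set_option autoImplicit false

namespace Pool.Agent.Lib.MPbe29a0

/-- Subtraction of expressions. -/
def RatExpr.sub {g : ℕ} (r s : RatExpr ℚ g) : RatExpr ℚ g :=
  .add r (.mul (.scalar (-1)) s)

/-- The commutator `p q - q p` of the two variables `p = x₀` and `q = x₁`. -/
def exK : RatExpr ℚ 2 :=
  RatExpr.sub (.mul (.var 0) (.var 1)) (.mul (.var 1) (.var 0))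

/-- `c = (p q - q p)⁻¹ (p² + q³ - 4 q)`. -/
def exC : RatExpr ℚ 2 :=
  .mul (.inv exK) (RatExpr.sub (.add (.mul (.var 0) (.var 0)) (.mul (.mul (.var 1) (.var 1)) (.var 1)))
    (.mul (.scalar 4) (.var 1)))

/-- `X = c² + q + (p q - q p)⁻¹ q (p q - q p)`. -/
def exX : RatExpr ℚ 2 :=
  .add (.mul exC exC) (.add (.var 1) (.mul (.inv exK) (.mul (.var 1) exK)))

/-- `Y = p - q c - c X`. -/
def exY : RatExpr ℚ 2 :=
  RatExpr.sub (RatExpr.sub (.var 0) (.mul (.var 1) exC)) (.mul exC exX)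

/-- `r = Y + Y⁻¹`. -/
def exR : RatExpr ℚ 2 := .add exY (.inv exY)

variable {A : Type} [Ring A] [Algebra ℚ A]

theorem sub_eval {g : ℕ} (Ξ : Fin g → A) (r s : RatExpr ℚ g) :
    (RatExpr.sub r s).eval Ξ = r.eval Ξ - s.eval Ξ := by
  simp [RatExpr.sub, RatExpr.eval, sub_eq_add_neg]

theorem sub_defined {g : ℕ} (Ξ : Fin g → A) (r s : RatExpr ℚ g) :
    (RatExpr.sub r s).DefinedAt Ξ ↔ r.DefinedAt Ξ ∧ s.DefinedAt Ξ := by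
  simp [RatExpr.sub, RatExpr.DefinedAt]

theorem exK_eval (Ξ : Fin 2 → A) : exK.eval Ξ = Ξ 0 * Ξ 1 - Ξ 1 * Ξ 0 := by
  simp [exK, sub_eval, RatExpr.eval]

theorem exC_eval (Ξ : Fin 2 → A) : exC.eval Ξ =
    Ring.inverse (Ξ 0 * Ξ 1 - Ξ 1 * Ξ 0) * (Ξ 0 * Ξ 0 + Ξ 1 * Ξ 1 * Ξ 1 - 4 * Ξ 1) := by
  have h4 : algebraMap ℚ A 4 = 4 := map_ofNat (algebraMap ℚ A) 4
  simp [exC, sub_eval, RatExpr.eval, exK_eval, h4]

theorem exX_eval (Ξ : Fin 2 → A) : exX.eval Ξ = exC.eval Ξ * exC.eval Ξ +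
    (Ξ 1 + Ring.inverse (Ξ 0 * Ξ 1 - Ξ 1 * Ξ 0) * (Ξ 1 * (Ξ 0 * Ξ 1 - Ξ 1 * Ξ 0))) := by
  simp [exX, RatExpr.eval, exK_eval]

theorem exY_eval (Ξ : Fin 2 → A) : exY.eval Ξ =
    Ξ 0 - Ξ 1 * exC.eval Ξ - exC.eval Ξ * exX.eval Ξ := by
  simp [exY, sub_eval, RatExpr.eval]

theorem exR_eval (Ξ : Fin 2 → A) : exR.eval Ξ = exY.eval Ξ + Ring.inverse (exY.eval Ξ) := by
  simp [exR, RatExpr.eval]

theorem exR_defined (Ξ : Fin 2 → A) : exR.DefinedAt Ξ ↔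
    IsUnit (Ξ 0 * Ξ 1 - Ξ 1 * Ξ 0) ∧ IsUnit (exY.eval Ξ) := by
  have h1 : exK.DefinedAt Ξ := by simp [exK, sub_defined, RatExpr.DefinedAt]
  have h2 : exC.DefinedAt Ξ ↔ IsUnit (Ξ 0 * Ξ 1 - Ξ 1 * Ξ 0) := by
    simp [exC, sub_defined, RatExpr.DefinedAt, h1, exK_eval]
  have h3 : exX.DefinedAt Ξ ↔ IsUnit (Ξ 0 * Ξ 1 - Ξ 1 * Ξ 0) := by
    simp [exX, RatExpr.DefinedAt, h1, h2, exK_eval]
  have h4 : exY.DefinedAt Ξ ↔ IsUnit (Ξ 0 * Ξ 1 - Ξ 1 * Ξ 0) := by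
    simp [exY, sub_defined, RatExpr.DefinedAt, h2, h3]
  simp [exR, RatExpr.DefinedAt, h4]

/-- The two elements commute and satisfy the equation of the elliptic curve. -/
theorem exR_relations (Ξ : Fin 2 → A) (h : exR.DefinedAt Ξ) :
    exX.eval Ξ * exY.eval Ξ = exY.eval Ξ * exX.eval Ξ ∧
    exY.eval Ξ * exY.eval Ξ = exX.eval Ξ * exX.eval Ξ * exX.eval Ξ - 4 * exX.eval Ξ := by
  rw [exR_defined] at h
  exact elliptic (Ξ 0) (Ξ 1) (Ring.inverse (Ξ 0 * Ξ 1 - Ξ 1 * Ξ 0))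
    (Ring.inverse_mul_cancel _ h.1) (Ring.mul_inverse_cancel _ h.1) _ _ _
    (exC_eval Ξ) (exX_eval Ξ) (exY_eval Ξ)

end Pool.Agent.Lib.MPbe29a0
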