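import Pool.Agent.Lib.MP_be29a0_al.Point

set_option autoImplicit false

namespace Pool.Agent.Lib.MPbe29a0

open MvPolynomial

theorem ent_map {k : Type} [Field k] {g n : ℕ} {S T : Type} [CommRing S] [Algebra k S]
    [CommRing T] [Algebra k T] (f : S →ₐ[k] T) (Ξ : Fin g → Matrix (Fin n) (Fin n) S)
    (p : Gen k g n) : f (ent Ξ p) = ent (fun l => (Ξ l).map f) p := by
  have h : f.comp (ent (k := k) Ξ) = ent (fun l => (Ξ l).map f) := by
    apply MvPolynomial.algHom_ext
    intro i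
    simp [ent]
  exact congrArg (fun F : Gen k g n →ₐ[k] T => F p) h

/-- At points where the function can be deformed into the domain of `exR`, there is no simple
eigenvalue in `K`. -/
theorem no_simple {K : Type} [Field K] [Algebra ℚ K]
    (hK : ∀ x y : K, y ≠ 0 → y * y ≠ x * x * x - 4 * x) {n : ℕ}
    (Ω : Fin 2 → Matrix (Fin n) (Fin n) ℚ) (hΩ : exR.DefinedAt Ω)
    (s : RatExpr ℚ 2) (hs : exR.Equivalent s)
    (Ξ : Fin 2 → Matrix (Fin n) (Fin n) K) (hΞ : s.DefinedAt Ξ) (μ : K) :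
    (s.eval Ξ).charpoly.rootMultiplicity μ ≠ 1 := by
  classical
  intro hμ
  obtain ⟨δ, N, hr⟩ := exR.exists_den n
  obtain ⟨ε, M, hs'⟩ := s.exists_den n
  let O := PowerSeries K
  let F := FractionRing (PowerSeries K)
  let ΩK : Fin 2 → Matrix (Fin n) (Fin n) K := fun l => (Ω l).map (Algebra.ofId ℚ K)
  -- the line through the two points
  let ΞP : Fin 2 → Matrix (Fin n) (Fin n) (Polynomial K) := fun l a b =>
    Polynomial.C (Ξ l a b) + Polynomial.X * Polynomial.C (ΩK l a b - Ξ l a b)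
  let ι : Polynomial K →ₐ[ℚ] PowerSeries K :=
    (Polynomial.coeToPowerSeries.ringHom (R := K)).toRatAlgHom
  let c0 : PowerSeries K →ₐ[ℚ] K := (PowerSeries.constantCoeff (R := K)).toRatAlgHom
  let j : PowerSeries K →ₐ[ℚ] F := (algebraMap (PowerSeries K) F).toRatAlgHom
  let e1 : Polynomial K →ₐ[ℚ] K := (Polynomial.evalRingHom (1 : K)).toRatAlgHom
  let ΞO : Fin 2 → Matrix (Fin n) (Fin n) (PowerSeries K) := fun l => (ΞP l).map ι
  let ΞF : Fin 2 → Matrix (Fin n) (Fin n) F := fun l => (ΞO l).map j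
  have hΞ0 : (fun l => (ΞO l).map c0) = Ξ := by
    funext l
    ext a b
    show PowerSeries.constantCoeff ((ΞP l a b : Polynomial K) : PowerSeries K) = Ξ l a b
    simp [ΞP]
  have hΞ1 : (fun l => (ΞP l).map e1) = ΩK := by
    funext l
    ext a b
    show Polynomial.eval 1 (ΞP l a b) = ΩK l a b
    simp [ΞP]
  -- `s` along the line
  have hεu : IsUnit (ent ΞO ε) := by
    rw [PowerSeries.isUnit_iff_constantCoeff]
    show IsUnit (c0 (ent ΞO ε))
    rw [ent_map, hΞ0]
    exact (hs' K Ξ).1.1 hΞ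
  have hsO : s.DefinedAt ΞO := (hs' _ ΞO).1.2 hεu
  have hevO : s.eval Ξ = (s.eval ΞO).map c0 := by
    have h1 := (RatExpr.map (AlgHom.mapMatrix c0) ΞO s hsO).2
    have h2 : (fun i => (AlgHom.mapMatrix c0) (ΞO i)) = Ξ := hΞ0
    rw [h2] at h1
    exact h1
  obtain ⟨hsF, hevF⟩ := RatExpr.map (AlgHom.mapMatrix j) ΞO s hsO
  have hsF' : s.DefinedAt ΞF := hsF
  have hevF' : s.eval ΞF = (s.eval ΞO).map j := hevF
  have hjinj : Function.Injective j := IsFractionRing.injective (PowerSeries K) F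
  -- `exR` along the line
  have hδP : ent ΞP δ ≠ 0 := by
    intro h0
    have h1 : e1 (ent ΞP δ) = 0 := by rw [h0, map_zero]
    rw [ent_map, hΞ1] at h1
    have h2 : ent ΩK δ = Algebra.ofId ℚ K (ent Ω δ) := (ent_map (Algebra.ofId ℚ K) Ω δ).symm
    rw [h2] at h1
    have h3 : ent Ω δ = 0 := by
      have : Function.Injective (Algebra.ofId ℚ K) := (Algebra.ofId ℚ K).toRingHom.injective
      exact this (by rw [h1, map_zero])
    have h4 := (hr ℚ Ω).1.1 hΩ
    rw [h3] at h4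
    exact not_isUnit_zero h4
  have hδF : ent ΞF δ ≠ 0 := by
    have h1 : ent ΞF δ = j (ι (ent ΞP δ)) := by
      rw [ent_map, ent_map]
    rw [h1]
    intro h0
    apply hδP
    have h2 : ι (ent ΞP δ) = 0 := hjinj (by rw [h0, map_zero])
    exact Polynomial.coe_injective K (by
      show ι (ent ΞP δ) = _
      rw [h2]
      simp)
  have hRF : exR.DefinedAt ΞF := (hr F ΞF).1.2 (IsUnit.mk0 _ hδF)
  have hεF : ent ΞF ε ≠ 0 := ((hs' F ΞF).1.1 hsF').ne_zero
  have hδ0 : δ ≠ 0 := by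
    intro h
    rw [h, map_zero] at hδF
    exact hδF rfl
  have hε0 : ε ≠ 0 := by
    intro h
    rw [h, map_zero] at hεF
    exact hεF rfl
  have hprop := equiv_den hs hr hs' hδ0 hε0
  have heq : exR.eval ΞF = s.eval ΞF := by
    have h1 := (hr F ΞF).2 hRF
    have h2 := (hs' F ΞF).2 hsF'
    ext a b
    have h3 := congrFun (congrFun h1 a) b
    have h4 := congrFun (congrFun h2 a) b
    rw [Matrix.smul_apply, smul_eq_mul, Matrix.map_apply] at h3 h4
    have h5 := congrArg (ent ΞF) (congrFun (congrFun hprop a) b)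
    rw [Matrix.smul_apply, Matrix.smul_apply, smul_eq_mul, smul_eq_mul, map_mul, map_mul, ← h3,
      ← h4] at h5
    have h6 : ent ΞF ε * ent ΞF δ * (exR.eval ΞF a b - s.eval ΞF a b) = 0 := by
      linear_combination h5
    have h7 : ent ΞF ε * ent ΞF δ ≠ 0 := mul_ne_zero hεF hδF
    exact sub_eq_zero.1 ((mul_eq_zero.1 h6).resolve_left h7)
  rw [hevO] at hμ
  obtain ⟨h7, h8⟩ := exR_relations ΞF hRF
  obtain ⟨x, y, hy0, hxy⟩ := point_of_simple (s.eval ΞO) μ hμ F (exX.eval ΞF) (exY.eval ΞF)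
    ((exR_defined ΞF).1 hRF).2 h7 h8 (by
      rw [← exR_eval, heq, hevF']
      rfl)
  exact hK x y hy0 hxy

end Pool.Agent.Lib.MPbe29a0
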