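import Pool.Agent.Lib.MP_be29a0_al.Deform

set_option autoImplicit false

namespace Pool.Agent.Lib.MPbe29a0

/-- A simple eigenvalue at the special point gives a point of the elliptic curve. -/
theorem point_of_simple {K : Type} [Field K] {n : ℕ}
    (A : Matrix (Fin n) (Fin n) (PowerSeries K)) (μ : K)
    (hμ : (A.map (PowerSeries.constantCoeff (R := K))).charpoly.rootMultiplicity μ = 1)
    (F : Type) [Field F] [Algebra (PowerSeries K) F] [IsFractionRing (PowerSeries K) F]
    (X Y : Matrix (Fin n) (Fin n) F) (hY : IsUnit Y)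
    (hXY : X * Y = Y * X) (hE : Y * Y = X * X * X - 4 * X)
    (hA : A.map (algebraMap (PowerSeries K) F) = Y + Ring.inverse Y) :
    ∃ x y : K, y ≠ 0 ∧ y * y = x * x * x - 4 * x := by
  classical
  obtain ⟨ν, h1, h2, h3⟩ := hensel A μ hμ
  set j : PowerSeries K →+* F := algebraMap (PowerSeries K) F with hj
  have hjinj : Function.Injective j := IsFractionRing.injective (PowerSeries K) F
  set AF := A.map j with hAF
  have hchar : AF.charpoly = A.charpoly.map j := by
    rw [← Matrix.charpoly_map]
  have hroot : AF.charpoly.IsRoot (j ν) := by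
    rw [hchar, Polynomial.IsRoot, Polynomial.eval_map, Polynomial.eval₂_at_apply]
    rw [h1, map_zero]
  have hder : ¬ AF.charpoly.derivative.IsRoot (j ν) := by
    rw [hchar, Polynomial.derivative_map, Polynomial.IsRoot, Polynomial.eval_map,
      Polynomial.eval₂_at_apply]
    exact (h2.map j).ne_zero
  have hne : AF.charpoly ≠ 0 := (Matrix.charpoly_monic _).ne_zero
  have hmult : AF.charpoly.rootMultiplicity (j ν) = 1 := by
    have h4 : 0 < AF.charpoly.rootMultiplicity (j ν) := (Polynomial.rootMultiplicity_pos hne).2 hroot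
    have h5 : ¬ 1 < AF.charpoly.rootMultiplicity (j ν) := by
      intro h
      exact hder ((Polynomial.one_lt_rootMultiplicity_iff_isRoot hne).1 h).2
    omega
  -- eigenvector
  obtain ⟨v, hv0, hv⟩ : ∃ v : Fin n → F, v ≠ 0 ∧ AF.mulVec v = j ν • v := by
    have h4 : Module.End.HasEigenvalue (Matrix.toLin' AF) (j ν) := by
      rw [Module.End.hasEigenvalue_iff_isRoot_charpoly, Matrix.charpoly_toLin']
      exact hroot
    obtain ⟨v, hv⟩ := h4.exists_hasEigenvector
    exact ⟨v, hv.2, hv.apply_eq_smul⟩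
  -- commutation
  obtain ⟨u, hu⟩ := hY
  have hinv : Ring.inverse Y = ((u⁻¹ : (Matrix (Fin n) (Fin n) F)ˣ) : Matrix (Fin n) (Fin n) F) := by
    rw [← hu, Ring.inverse_unit]
  have hcX : Commute X Y := hXY
  have hcXi : Commute X (Ring.inverse Y) := by
    rw [hinv]
    rw [← hu] at hcX
    exact hcX.units_inv_right
  have hAY : AF * Y = Y * AF := by
    rw [hA, hinv, ← hu]
    rw [add_mul, mul_add, Units.inv_mul, Units.mul_inv]
  have hAX : AF * X = X * AF := by
    rw [hA]
    rw [add_mul, mul_add, hcX.eq, hcXi.eq]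
  obtain ⟨y, hy⟩ := scalar_on_eigenvector AF Y hAY (j ν) hmult v hv0 hv
  obtain ⟨x, hx⟩ := scalar_on_eigenvector AF X hAX (j ν) hmult v hv0 hv
  have hYA : Y * AF = Y * Y + 1 := by
    rw [hA, hinv, ← hu, mul_add, Units.mul_inv]
  have hsm : ∀ a b : F, a • v = b • v → a = b := by
    intro a b hab
    by_contra hne
    apply hv0
    have h4 : (a - b) • v = 0 := by rw [sub_smul, hab, sub_self]
    exact (smul_eq_zero.1 h4).resolve_left (sub_ne_zero.2 hne)
  have hyv : y * j ν = y * y + 1 := by
    apply hsm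
    have h4 : (Y * AF).mulVec v = (Y * Y + 1).mulVec v := by rw [hYA]
    rw [← Matrix.mulVec_mulVec, hv, Matrix.mulVec_smul, hy, Matrix.add_mulVec,
      ← Matrix.mulVec_mulVec, hy, Matrix.mulVec_smul, hy, Matrix.one_mulVec, smul_smul,
      smul_smul] at h4
    rw [add_smul, one_smul, mul_comm y (j ν)]
    exact h4
  have hxy : y * y = x * x * x - 4 * x := by
    apply hsm
    have h4 : (Y * Y).mulVec v = (X * X * X - 4 * X).mulVec v := by rw [hE]
    have h5 : (4 * X : Matrix (Fin n) (Fin n) F) = (4 : F) • X := by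
      ext a b
      have : (4 : Matrix (Fin n) (Fin n) F) = Matrix.diagonal (fun _ => (4:F)) := by
        rfl
      rw [this, Matrix.diagonal_mul]
      simp
    rw [h5, Matrix.sub_mulVec, Matrix.smul_mulVec, ← Matrix.mulVec_mulVec, hy,
      Matrix.mulVec_smul, hy, ← Matrix.mulVec_mulVec, hx, Matrix.mulVec_smul,
      ← Matrix.mulVec_mulVec, hx, Matrix.mulVec_smul, hx, smul_smul, smul_smul, smul_smul,
      smul_smul] at h4
    rw [sub_smul]
    convert h4 using 2
  -- integrality
  obtain ⟨y0, hy0⟩ : ∃ y0 : PowerSeries K, j y0 = y := by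
    apply IsIntegrallyClosed.isIntegral_iff.1
    refine ⟨Polynomial.X ^ 2 - (Polynomial.C ν * Polynomial.X - 1), ?_, ?_⟩
    · apply Polynomial.monic_X_pow_sub
      compute_degree!
    · simp only [Polynomial.eval₂_sub, Polynomial.eval₂_pow, Polynomial.eval₂_X,
        Polynomial.eval₂_mul, Polynomial.eval₂_C, Polynomial.eval₂_one]
      linear_combination (-1 : F) * hyv
  obtain ⟨x0, hx0⟩ : ∃ x0 : PowerSeries K, j x0 = x := by
    apply IsIntegrallyClosed.isIntegral_iff.1
    refine ⟨Polynomial.X ^ 3 - (Polynomial.C 4 * Polynomial.X + Polynomial.C (y0 * y0)), ?_, ?_⟩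
    · apply Polynomial.monic_X_pow_sub
      compute_degree!
    · simp only [Polynomial.eval₂_sub, Polynomial.eval₂_pow, Polynomial.eval₂_X,
        Polynomial.eval₂_mul, Polynomial.eval₂_C, Polynomial.eval₂_add]
      have h6 : (algebraMap (PowerSeries K) F) 4 = 4 := map_ofNat _ 4
      have h7 : (algebraMap (PowerSeries K) F) (y0 * y0) = y * y := by
        rw [map_mul]
        show j y0 * j y0 = y * y
        rw [hy0]
      rw [h6, h7]
      linear_combination (-1 : F) * hxy
  have hy1 : y0 * ν = y0 * y0 + 1 := by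
    apply hjinj
    rw [map_mul, map_add, map_mul, map_one, hy0]
    exact hyv
  have hxy1 : y0 * y0 = x0 * x0 * x0 - 4 * x0 := by
    apply hjinj
    have h6 : j 4 = 4 := map_ofNat _ 4
    rw [map_mul, map_sub, map_mul, map_mul, map_mul, hy0, hx0, h6]
    exact hxy
  set φ := PowerSeries.constantCoeff (R := K) with hφ
  have hy2 := congrArg φ hy1
  have hxy2 := congrArg φ hxy1
  rw [map_mul, map_add, map_mul, map_one] at hy2
  have h6 : φ 4 = 4 := map_ofNat _ 4
  rw [map_mul, map_sub, map_mul, map_mul, map_mul, h6] at hxy2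
  refine ⟨φ x0, φ y0, ?_, hxy2⟩
  intro h0
  rw [h0] at hy2
  simp at hy2

end Pool.Agent.Lib.MPbe29a0
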