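import Pool.Agent.Lib.MP_be29a0_al.NoSimple
import Pool.Agent.Lib.MP_be29a0_al.Curve

set_option autoImplicit false

namespace Pool.Agent.Lib.MPbe29a0

open MvPolynomial

theorem ringInverse_eq {A : Type} [Ring A] {a b : A} (h1 : a * b = 1) (h2 : b * a = 1) :
    Ring.inverse a = b := Ring.inverse_unit (⟨a, b, h1, h2⟩ : Aˣ)

theorem exR_at {A : Type} [Ring A] [Algebra ℚ A] (Ξ : Fin 2 → A) (κ κi c X Y Yi : A)
    (h1 : Ξ 0 * Ξ 1 - Ξ 1 * Ξ 0 = κ) (h2 : κ * κi = 1) (h3 : κi * κ = 1)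
    (h4 : κi * (Ξ 0 * Ξ 0 + Ξ 1 * Ξ 1 * Ξ 1 - 4 * Ξ 1) = c)
    (h5 : c * c + (Ξ 1 + κi * (Ξ 1 * κ)) = X)
    (h6 : Ξ 0 - Ξ 1 * c - c * X = Y) (h7 : Y * Yi = 1) (h8 : Yi * Y = 1) :
    exR.DefinedAt Ξ ∧ exR.eval Ξ = Y + Yi := by
  have e1 : Ring.inverse (Ξ 0 * Ξ 1 - Ξ 1 * Ξ 0) = κi := by
    rw [h1]; exact ringInverse_eq h2 h3
  have e2 : exC.eval Ξ = c := by rw [exC_eval, e1, h4]
  have e3 : exX.eval Ξ = X := by rw [exX_eval, e1, e2, h1, h5]
  have e4 : exY.eval Ξ = Y := by rw [exY_eval, e2, e3, h6]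
  refine ⟨?_, ?_⟩
  · rw [exR_defined, h1, e4]
    exact ⟨⟨⟨κ, κi, h2, h3⟩, rfl⟩, ⟨⟨Y, Yi, h7, h8⟩, rfl⟩⟩
  · rw [exR_eval, e4, ringInverse_eq h7 h8]

/-- A point of size two. -/
def pt2 (K : Type) [Field K] : Fin 2 → Matrix (Fin 2) (Fin 2) K :=
  ![!![0, -1; 0, 0], !![1, 0; 1, 0]]

theorem pt2_spec (K : Type) [Field K] [Algebra ℚ K] : exR.DefinedAt (pt2 K) ∧
    exR.eval (pt2 K) = !![0, -(2/3); 2, 0] := by
  have : CharZero K := algebraRat.charZero K
  have h := exR_at (pt2 K) !![-1, 1; 0, 1] !![-1, 1; 0, 1] !![0, 0; -3, 0] 1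
    !![0, -1; 3, 0] !![0, 1/3; -1, 0] (by
      ext i j
      fin_cases i <;> fin_cases j <;>
        simp [pt2, Matrix.mul_apply, Fin.sum_univ_two])
    (by
      ext i j
      fin_cases i <;> fin_cases j <;>
        simp [Matrix.mul_apply, Fin.sum_univ_two])
    (by
      ext i j
      fin_cases i <;> fin_cases j <;>
        simp [Matrix.mul_apply, Fin.sum_univ_two])
    (by
      rw [show (4 : Matrix (Fin 2) (Fin 2) K) = 1 + 1 + 1 + 1 by norm_num, add_mul, add_mul,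
        add_mul, one_mul]
      ext i j
      fin_cases i <;> fin_cases j <;>
        simp [pt2, Matrix.mul_apply, Fin.sum_univ_two] <;> norm_num)
    (by
      ext i j
      fin_cases i <;> fin_cases j <;>
        simp [pt2, Matrix.mul_apply, Fin.sum_univ_two])
    (by
      ext i j
      fin_cases i <;> fin_cases j <;>
        simp [pt2, Matrix.mul_apply, Fin.sum_univ_two])
    (by
      ext i j
      fin_cases i <;> fin_cases j <;>
        simp [Matrix.mul_apply, Fin.sum_univ_two])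
    (by
      ext i j
      fin_cases i <;> fin_cases j <;>
        simp [Matrix.mul_apply, Fin.sum_univ_two])
  refine ⟨h.1, ?_⟩
  rw [h.2]
  ext i j
  fin_cases i <;> fin_cases j <;> simp <;> norm_num

/-- A point of size three. -/
def pt3 (K : Type) [Field K] : Fin 2 → Matrix (Fin 3) (Fin 3) K :=
  ![!![0, -1, 0; 0, 0, -1; -1, 0, 0], !![0, 0, 0; 1, 0, 0; 1, 0, 1]]

theorem pt3_spec (K : Type) [Field K] [Algebra ℚ K] : exR.DefinedAt (pt3 K) := by
  have h := exR_at (pt3 K) !![-1, 0, 0; -1, 1, -1; 1, 1, 0] !![-1, 0, 0; 1, 0, 1; 2, -1, 1]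
    !![0, 0, -1; -3, 1, -2; 0, 1, -1] !![0, -1, 1; -2, 0, 3; -1, 1, 0] (-1) (-1) (by
      ext i j
      fin_cases i <;> fin_cases j <;>
        simp [pt3, Matrix.mul_apply, Fin.sum_univ_three])
    (by
      ext i j
      fin_cases i <;> fin_cases j <;>
        simp [Matrix.mul_apply, Fin.sum_univ_three] <;> norm_num)
    (by
      ext i j
      fin_cases i <;> fin_cases j <;>
        simp [Matrix.mul_apply, Fin.sum_univ_three] <;> norm_num)
    (by
      rw [show (4 : Matrix (Fin 3) (Fin 3) K) = 1 + 1 + 1 + 1 by norm_num, add_mul, add_mul,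
        add_mul, one_mul]
      ext i j
      fin_cases i <;> fin_cases j <;>
        simp [pt3, Matrix.mul_apply, Fin.sum_univ_three] <;> norm_num)
    (by
      ext i j
      fin_cases i <;> fin_cases j <;>
        simp [pt3, Matrix.mul_apply, Fin.sum_univ_three] <;> norm_num)
    (by
      ext i j
      fin_cases i <;> fin_cases j <;>
        simp [pt3, Matrix.mul_apply, Fin.sum_univ_three] <;> norm_num)
    (by simp)
    (by simp)
  exact h.1

theorem exists_pt (n : ℕ) (hn : 2 ≤ n) :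
    ∃ Ω : Fin 2 → Matrix (Fin n) (Fin n) ℚ, exR.DefinedAt Ω := by
  induction n using Nat.strong_induction_on with
  | _ n ih =>
    rcases Nat.lt_or_ge n 4 with h | h
    · interval_cases n
      · exact ⟨_, (pt2_spec ℚ).1⟩
      · exact ⟨_, pt3_spec ℚ⟩
    · obtain ⟨m, rfl⟩ : ∃ m, n = m + 2 := ⟨n - 2, by omega⟩
      obtain ⟨Ω, hΩ⟩ := ih m (by omega) (by omega)
      exact ⟨_, (RatExpr.sum Ω (pt2 ℚ) exR hΩ (pt2_spec ℚ).1).1⟩

/-- `-4/3` is not a square in `ℚ(t)`. -/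
theorem no_sqrt (μ : RatFunc ℚ) : μ * μ ≠ -(4/3) := by
  intro h
  have hint : IsIntegral (Polynomial ℚ) (μ ^ 2) := by
    have : μ ^ 2 = algebraMap (Polynomial ℚ) (RatFunc ℚ) (Polynomial.C (-(4/3))) := by
      rw [pow_two, h, RatFunc.algebraMap_C]
      simp
    rw [this]
    exact isIntegral_algebraMap
  obtain ⟨f, hf⟩ := IsIntegrallyClosed.exists_algebraMap_eq_of_isIntegral_pow (by norm_num) hint
  have h1 : f * f = Polynomial.C (-(4/3)) := by
    apply RatFunc.algebraMap_injective ℚ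
    rw [map_mul, hf, h, RatFunc.algebraMap_C]
    simp
  have h2 := congrArg Polynomial.leadingCoeff h1
  rw [Polynomial.leadingCoeff_mul, Polynomial.leadingCoeff_C] at h2
  nlinarith [mul_self_nonneg f.leadingCoeff]

end Pool.Agent.Lib.MPbe29a0
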