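import Pool.Agent.Lib.MP_be29a0_al.Points

set_option autoImplicit false

namespace Pool.Agent.Lib.MPbe29a0

open MvPolynomial

theorem separating_point {K : Type} [Field K] [Algebra ℚ K] (hsq : ∀ μ : K, μ * μ ≠ -(4/3))
    (s : RatExpr ℚ 2) (hs : exR.Equivalent s)
    (h1 : ∃ Ξ : Fin 2 → Matrix (Fin 2) (Fin 2) K, s.DefinedAt Ξ) (μ : K) :
    ∃ Υ : Fin 2 → Matrix (Fin 2) (Fin 2) K, s.DefinedAt Υ ∧
      ¬ (s.eval Υ).charpoly.IsRoot μ := by
  classical
  have : CharZero K := algebraRat.charZero K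
  have : Infinite K := inferInstance
  obtain ⟨δ, N, hr⟩ := exR.exists_den 2
  obtain ⟨ε, M, hs'⟩ := s.exists_den 2
  obtain ⟨Ξ, hΞ⟩ := h1
  let mp : Gen ℚ 2 2 →+* Gen K 2 2 := MvPolynomial.map (algebraMap ℚ K)
  have hmp : ∀ (x : Fin 2 × Fin 2 × Fin 2 → K) (f : Gen ℚ 2 2),
      eval x (mp f) = ent (fun l a b => x (l, a, b) : Fin 2 → Matrix (Fin 2) (Fin 2) K) f := by
    intro x f
    simp only [mp]
    rw [eval_map]
    rfl
  have hent : ∀ (Υ : Fin 2 → Matrix (Fin 2) (Fin 2) K) (f : Gen ℚ 2 2),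
      eval (fun t => Υ t.1 t.2.1 t.2.2) (mp f) = ent Υ f := fun Υ f => hmp _ f
  have hεΞ : ent Ξ ε ≠ 0 := ((hs' K Ξ).1.1 hΞ).ne_zero
  have hδ2 : ent (pt2 K) δ ≠ 0 := ((hr K (pt2 K)).1.1 (pt2_spec K).1).ne_zero
  have hδ0 : δ ≠ 0 := by
    intro h
    rw [h, map_zero] at hδ2
    exact hδ2 rfl
  have hε0 : ε ≠ 0 := by
    intro h
    rw [h, map_zero] at hεΞ
    exact hεΞ rfl
  have hprop := equiv_den hs hr hs' hδ0 hε0
  have hmε : mp ε ≠ 0 := by
    intro h
    apply hεΞ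
    rw [← hent, h, map_zero]
  have hmδ : mp δ ≠ 0 := by
    intro h
    apply hδ2
    rw [← hent, h, map_zero]
  -- determinants
  let D1 : Gen K 2 2 := (mp ε • Matrix.scalar (Fin 2) (C μ) - M.map mp).det
  let D2 : Gen K 2 2 := (mp δ • Matrix.scalar (Fin 2) (C μ) - N.map mp).det
  have hD2ev : ∀ (Υ : Fin 2 → Matrix (Fin 2) (Fin 2) K), exR.DefinedAt Υ →
      eval (fun t => Υ t.1 t.2.1 t.2.2) D2 =
        (ent Υ δ) ^ 2 * (Matrix.scalar (Fin 2) μ - exR.eval Υ).det := by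
    intro Υ hΥ
    simp only [D2]
    rw [RingHom.map_det]
    have h3 : (eval (fun t => Υ t.1 t.2.1 t.2.2)).mapMatrix
        (mp δ • Matrix.scalar (Fin 2) (C μ) - N.map mp) =
        ent Υ δ • (Matrix.scalar (Fin 2) μ - exR.eval Υ) := by
      rw [smul_sub, (hr K Υ).2 hΥ]
      ext a b
      rw [RingHom.mapMatrix_apply, Matrix.map_apply, Matrix.sub_apply, Matrix.sub_apply,
        map_sub, Matrix.smul_apply, Matrix.smul_apply, smul_eq_mul, smul_eq_mul, map_mul, hent,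
        Matrix.map_apply, Matrix.map_apply, hent]
      congr 2
      by_cases hab : a = b
      · subst hab
        simp
      · simp [hab]
    rw [h3, Matrix.det_smul, Fintype.card_fin]
  have hD1ev : ∀ (Υ : Fin 2 → Matrix (Fin 2) (Fin 2) K), s.DefinedAt Υ →
      eval (fun t => Υ t.1 t.2.1 t.2.2) D1 =
        (ent Υ ε) ^ 2 * (Matrix.scalar (Fin 2) μ - s.eval Υ).det := by
    intro Υ hΥ
    simp only [D1]
    rw [RingHom.map_det]
    have h3 : (eval (fun t => Υ t.1 t.2.1 t.2.2)).mapMatrix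
        (mp ε • Matrix.scalar (Fin 2) (C μ) - M.map mp) =
        ent Υ ε • (Matrix.scalar (Fin 2) μ - s.eval Υ) := by
      rw [smul_sub, (hs' K Υ).2 hΥ]
      ext a b
      rw [RingHom.mapMatrix_apply, Matrix.map_apply, Matrix.sub_apply, Matrix.sub_apply,
        map_sub, Matrix.smul_apply, Matrix.smul_apply, smul_eq_mul, smul_eq_mul, map_mul, hent,
        Matrix.map_apply, Matrix.map_apply, hent]
      congr 2
      by_cases hab : a = b
      · subst hab
        simp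
      · simp [hab]
    rw [h3, Matrix.det_smul, Fintype.card_fin]
  have hD2 : D2 ≠ 0 := by
    intro h
    have h3 := hD2ev (pt2 K) (pt2_spec K).1
    rw [h, map_zero] at h3
    have h4 : (Matrix.scalar (Fin 2) μ - exR.eval (pt2 K)).det = 0 := by
      rcases mul_eq_zero.1 h3.symm with h5 | h5
      · exact absurd h5 (pow_ne_zero 2 hδ2)
      · exact h5
    rw [(pt2_spec K).2, Matrix.det_fin_two] at h4
    simp at h4
    apply hsq μ
    linear_combination h4
  have hrel : (mp δ) ^ 2 * D1 = (mp ε) ^ 2 * D2 := by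
    simp only [D1, D2]
    have h3 : ∀ (c : Gen K 2 2) (B : Matrix (Fin 2) (Fin 2) (Gen K 2 2)),
        c ^ 2 * B.det = (c • B).det := by
      intro c B
      rw [Matrix.det_smul, Fintype.card_fin]
    rw [h3, h3]
    congr 1
    rw [smul_sub, smul_sub, smul_smul, smul_smul, mul_comm (mp ε)]
    congr 1
    refine Matrix.ext (fun a b => ?_)
    have h4 := congrArg mp (congrFun (congrFun hprop a) b)
    rw [Matrix.smul_apply, Matrix.smul_apply, smul_eq_mul, smul_eq_mul, map_mul, map_mul] at h4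
    rw [Matrix.smul_apply, Matrix.smul_apply, smul_eq_mul, smul_eq_mul, Matrix.map_apply,
      Matrix.map_apply]
    exact h4.symm
  have hD1 : D1 ≠ 0 := by
    intro h
    rw [h, mul_zero] at hrel
    rcases mul_eq_zero.1 hrel.symm with h5 | h5
    · exact pow_ne_zero 2 hmε h5
    · exact hD2 h5
  -- choose a point
  obtain ⟨x, hx⟩ : ∃ x : Fin 2 × Fin 2 × Fin 2 → K, eval x (mp ε * D1) ≠ 0 := by
    by_contra hcon
    push Not at hcon
    apply mul_ne_zero hmε hD1
    apply MvPolynomial.funext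
    intro x
    rw [hcon x, map_zero]
  rw [map_mul] at hx
  let Υ : Fin 2 → Matrix (Fin 2) (Fin 2) K := fun l a b => x (l, a, b)
  have hx1 : ent Υ ε ≠ 0 := by
    rw [← hmp]
    exact left_ne_zero_of_mul hx
  have hΥ : s.DefinedAt Υ := (hs' K Υ).1.2 (IsUnit.mk0 _ hx1)
  refine ⟨Υ, hΥ, ?_⟩
  intro hroot
  rw [Polynomial.IsRoot, Matrix.eval_charpoly] at hroot
  apply right_ne_zero_of_mul hx
  have h6 := hD1ev Υ hΥ
  rw [hroot, mul_zero] at h6
  exact h6

end Pool.Agent.Lib.MPbe29a0
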